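import Pool.Agent.H37.CNE.Stmts

/-!
# Row SLB of the board `cne`: the higher ramification groups
-/

set_option autoImplicit false

namespace Pool.CND

open Finset Matrix

/-- powers of an upper unipotent matrix -/
theorem slb_pow {F : Type} [Field F] (g : SL F) (h0 : g.1 0 0 = 1) (h1 : g.1 1 0 = 0)
    (h2 : g.1 1 1 = 1) (n : ℕ) :
    (g ^ n).1 0 0 = 1 ∧ (g ^ n).1 1 0 = 0 ∧ (g ^ n).1 0 1 = n * g.1 0 1 ∧ (g ^ n).1 1 1 = 1 := by
  induction n with
  | zero =>
    rw [pow_zero]
    refine ⟨?_, ?_, ?_, ?_⟩ <;> simp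
  | succ n ih =>
    obtain ⟨a1, a2, a3, a4⟩ := ih
    have e : (g ^ (n + 1)).1 = (g ^ n).1 * g.1 := by
      rw [pow_succ]
      rfl
    rw [e]
    refine ⟨?_, ?_, ?_, ?_⟩
    · rw [Matrix.mul_apply, Fin.sum_univ_two, a1, a3, h0, h1]
      ring
    · rw [Matrix.mul_apply, Fin.sum_univ_two, a2, a4, h0, h1]
      ring
    · rw [Matrix.mul_apply, Fin.sum_univ_two, a1, a3, h2]
      push_cast
      ring
    · rw [Matrix.mul_apply, Fin.sum_univ_two, a2, a4, h2]
      ring

theorem slb_ext {F : Type} [Field F] (g : SL F) (h0 : g.1 0 0 = 1) (h1 : g.1 1 0 = 0)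
    (h2 : g.1 0 1 = 0) (h3 : g.1 1 1 = 1) : g = 1 := by
  apply Matrix.SpecialLinearGroup.ext
  intro i j
  fin_cases i <;> fin_cases j
  · simpa using h0
  · simpa using h2
  · simpa using h1
  · simpa using h3

theorem slb_det {F : Type} [Field F] (g : SL F) (h1 : g.1 1 0 = 0) :
    g.1 0 0 * g.1 1 1 = 1 := by
  have h2 := g.2
  rw [Matrix.det_fin_two, h1, mul_zero, sub_zero] at h2
  exact h2

section

variable {p : ℕ} {k F L : Type} [Field k] [Field F] [Field L] [Algebra F k] [Algebra k L]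
  {f q m : ℕ} {s x y : L} {ρ : SL F →* (L ≃ₐ[k] L)} {P : Place k L}

theorem slb_cst_inj {a b : F} (h : cst k F L a = cst k F L b) : a = b :=
  (algebraMap F k).injective ((algebraMap k L).injective h)

/-- an element of the Borel group acting trivially is trivial -/
theorem Sl.inj_borel (H : Sl k F L q m s x y ρ P) {g : SL F} (h10 : g.1 1 0 = 0)
    (h : ρ g = 1) : g = 1 := by
  have ax := H.act_x g
  have ay := H.act_y g
  rw [h, AlgEquiv.one_apply] at ax ay
  have h00 : g.1 0 0 = 1 := by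
    apply slb_cst_inj (k := k) (L := L)
    rw [h10] at ax
    have e0 : cst k F L 0 = 0 := by simp [cst]
    have e1 : cst k F L 1 = 1 := by simp [cst]
    rw [e0, zero_mul, add_zero] at ax
    rw [e1]
    have h2 : (cst k F L (g.1 0 0) - 1) * x = 0 := by linear_combination -ax
    rcases mul_eq_zero.1 h2 with h3 | h3
    · linear_combination h3
    · exact absurd h3 H.x_ne
  have h11 : g.1 1 1 = 1 := by
    have h2 := slb_det g h10
    rw [h00, one_mul] at h2
    exact h2
  have h01 : g.1 0 1 = 0 := by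
    apply slb_cst_inj (k := k) (L := L)
    rw [h11] at ay
    have e0 : cst k F L 0 = 0 := by simp [cst]
    have e1 : cst k F L 1 = 1 := by simp [cst]
    rw [e1, one_mul] at ay
    rw [e0]
    have h2 : cst k F L (g.1 0 1) * x = 0 := by linear_combination -ay
    rcases mul_eq_zero.1 h2 with h3 | h3
    · exact h3
    · exact absurd h3 H.x_ne
  exact slb_ext g h00 h10 h01 h11

/-- the value of `b` -/
theorem Sl.b_eq (hLO2 : S_LO2) (hINJ : S_INJ) (H : Sl k F L q m s x y ρ P) (hp : p.Prime)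
    (hch : CharP k p) (hmp : ¬ p ∣ m) {g : SL F} (hF : Fixes P (ρ g)) (h00 : g.1 0 0 = 1)
    (h10 : g.1 1 0 = 0) (h1 : g ≠ 1) (hb : 1 ≤ P.b (ρ g)) :
    P.b (ρ g) = ((m * (q + 1) : ℕ) : ℤ) := by
  have hρ : ρ g ≠ 1 := fun h => h1 (H.inj_borel h10 h)
  have hpi : ρ g P.pi ≠ P.pi := fun hcon => hρ (hINJ k L P (ρ g) P.pi hF P.pi_ne P.ord_pi hcon)
  have hb' : P.ord (ρ g P.pi - P.pi) = P.b (ρ g) + 1 := by
    rw [Place.b]
    ring
  have hy : ¬ (p : ℤ) ∣ P.ord y := by
    rw [H.ord_y, dvd_neg]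
    intro hcon
    exact hmp (by exact_mod_cast hcon)
  obtain ⟨-, h7⟩ := (hLO2 p k L P (ρ g) P.pi (P.b (ρ g)) hp hch hF P.pi_ne P.ord_pi hb hpi hb'
    y H.y_ne).1 hy
  have h11 : g.1 1 1 = 1 := by
    have h2 := slb_det g h10
    rw [h00, one_mul] at h2
    exact h2
  have h01 : g.1 0 1 ≠ 0 := fun h => h1 (slb_ext g h00 h10 h h11)
  have e1 : ρ g y - y = cst k F L (g.1 0 1) * x := by
    have e1 : cst k F L 1 = 1 := by simp [cst]
    rw [H.act_y g, h11, e1]
    ring
  have h3 : algebraMap F k (g.1 0 1) ≠ 0 := (map_ne_zero_iff _ (algebraMap F k).injective).2 h01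
  have h4 : cst k F L (g.1 0 1) ≠ 0 := (map_ne_zero_iff _ (algebraMap k L).injective).2 h3
  rw [e1, P.ord_mul _ _ h4 H.x_ne, P.ord_const _ h3, H.ord_x, H.ord_y] at h7
  push_cast at h7 ⊢
  linarith

end

theorem slb_thm (hSLF : S_SLF) (hRAM : S_RAM) (hLON : S_LON) (hINJ : S_INJ) (hTMO : S_TMO)
    (hLO2 : S_LO2) : S_SLB := by
  intro p k F L _ _ _ _ _ f q m s x y ρ P hp hch hf hq hF hm hmp H i g hi
  have hfix : ∀ g : SL F, Fixes P (ρ g) ↔ g.1 1 0 = 0 :=
    hSLF p k F L f q m s x y ρ P hp hch hf hq hF hm hmp H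
  have hpm : ¬ p ∣ m := by
    intro h
    have h1 : p ∣ Nat.gcd m (p * (q - 1)) := Nat.dvd_gcd h (Dvd.intro _ rfl)
    rw [hmp] at h1
    exact hp.one_lt.ne' (Nat.dvd_one.1 h1)
  rw [hRAM k L (SL F) P ρ g i hi]
  constructor
  · rintro ⟨h1, h2⟩
    have h10 := (hfix g).1 h1
    by_cases hg : g = 1
    · exact Or.inl hg
    right
    have hρ : ρ g ≠ 1 := fun h => hg (H.inj_borel h10 h)
    have h3 : (i : ℤ) ≤ P.b (ρ g) := h2.resolve_left hρ
    have hi1 : (1 : ℤ) ≤ i := by exact_mod_cast hi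
    have hb : 1 ≤ P.b (ρ g) := hi1.trans h3
    have h00 : g.1 0 0 = 1 := by
      by_contra hne
      have h4 : P.Ge (ρ g P.pi - P.pi) (1 + 1) := by
        right
        have : P.ord (ρ g P.pi - P.pi) = P.b (ρ g) + 1 := by
          rw [Place.b]
          ring
        rw [this]
        linarith
      have h5 := (hLON k L P (ρ g) P.pi 1 h1 P.pi_ne P.ord_pi (by norm_num) h4 x).resolve_right
        H.x_ne
      have e1 : ρ g x - x = cst k F L (g.1 0 0 - 1) * x := by
        rw [H.act_x g, h10]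
        simp [cst]
        ring
      have h6 : algebraMap F k (g.1 0 0 - 1) ≠ 0 :=
        (map_ne_zero_iff _ (algebraMap F k).injective).2 (sub_ne_zero.2 hne)
      have h7 : cst k F L (g.1 0 0 - 1) ≠ 0 :=
        (map_ne_zero_iff _ (algebraMap k L).injective).2 h6
      rw [e1] at h5
      have h8 := h5.resolve_left (mul_ne_zero h7 H.x_ne)
      rw [P.ord_mul _ _ h7 H.x_ne, P.ord_const _ h6] at h8
      linarith
    refine ⟨h00, h10, ?_⟩
    rw [H.b_eq hLO2 hINJ hp hch hpm h1 h00 h10 hg hb] at h3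
    exact_mod_cast h3
  · rintro (h1 | ⟨h00, h10, hi2⟩)
    · subst h1
      rw [map_one]
      exact ⟨Fixes.one, Or.inl rfl⟩
    · have h1 := (hfix g).2 h10
      refine ⟨h1, ?_⟩
      by_cases hρ : ρ g = 1
      · exact Or.inl hρ
      right
      have hg : g ≠ 1 := by
        rintro rfl
        exact hρ (map_one ρ)
      have h11 : g.1 1 1 = 1 := by
        have h2 := slb_det g h10
        rw [h00, one_mul] at h2
        exact h2
      have hram0 : g ∈ ram P ρ 0 := by
        refine ⟨h1, ?_⟩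
        intro u hu ou
        by_cases he : ρ g u = u
        · exact Or.inl he
        · refine Or.inr ?_
          have hgu : ρ g u ≠ 0 := by simpa using hu
          have hne : ρ g u + -u ≠ 0 := fun hcon => he (by linear_combination hcon)
          have h6 := P.ord_add (ρ g u) (-u) hgu (neg_ne_zero.2 hu) hne
          rw [P.ord_neg, h1 u hu, ou, ← sub_eq_add_neg] at h6
          simpa using h6
      have hgp : g ^ p = 1 := by
        obtain ⟨a1, a2, a3, a4⟩ := slb_pow g h00 h10 h11 p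
        have hchF : (p : F) = 0 := by
          apply (algebraMap F k).injective
          rw [map_natCast, map_zero]
          exact CharP.cast_eq_zero k p
        rw [hchF, zero_mul] at a3
        exact slb_ext _ a1 a2 a3 a4
      have hram1 : g ∈ ram P ρ 1 := by
        apply hTMO p k L (SL F) P ρ hp hch g hram0
        rw [hgp]
        refine ⟨by rw [map_one]; exact Fixes.one, ?_⟩
        intro u _ _
        left
        rw [map_one, AlgEquiv.one_apply]
      have h3 := ((hRAM k L (SL F) P ρ g 1 le_rfl).1 hram1).2.resolve_left hρ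
      have hb : 1 ≤ P.b (ρ g) := by exact_mod_cast h3
      rw [H.b_eq hLO2 hINJ hp hch hpm h1 h00 h10 hg hb]
      exact_mod_cast hi2

end Pool.CND
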