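import Pool.Agent.H37.CNE.Stmts

/-!
# Row SLF of the board `cne`: the elements fixing the place
-/

set_option autoImplicit false

namespace Pool.CND

open Finset Matrix

section

variable {p : ℕ} {k F L : Type} [Field k] [Field F] [Field L] [Algebra F k] [Algebra k L]
  {f q m : ℕ} {s x y : L} {ρ : SL F →* (L ≃ₐ[k] L)} {P : Place k L}

/-- the order of a nonzero constant -/
theorem slf_cst (P : Place k L) {a : F} (ha : a ≠ 0) : cst k F L a ≠ 0 ∧ P.ord (cst k F L a) = 0 := by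
  have h1 : algebraMap F k a ≠ 0 := (map_ne_zero_iff _ (algebraMap F k).injective).2 ha
  exact ⟨(map_ne_zero_iff _ (algebraMap k L).injective).2 h1, P.ord_const _ h1⟩

/-- `b x + d y` has the order of `y` if `d ≠ 0` -/
theorem Sl.ord_lin (H : Sl k F L q m s x y ρ P) (hm : 1 ≤ m) (b : F) {d : F} (hd : d ≠ 0) :
    cst k F L b * x + cst k F L d * y ≠ 0 ∧
      P.ord (cst k F L b * x + cst k F L d * y) = P.ord y := by
  obtain ⟨h1, h2⟩ := slf_cst (L := L) P hd
  have h3 : P.ord (cst k F L d * y) = P.ord y := by rw [P.ord_mul _ _ h1 H.y_ne, h2, zero_add]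
  have h4 : P.Ge (cst k F L b * x) (P.ord (cst k F L d * y) + 1) := by
    rw [h3, H.ord_y]
    have h5 : P.Ge (cst k F L b * x) (0 + P.ord x) := P.ge_mul (P.ge_const _) (P.ge_ord x)
    rw [H.ord_x] at h5
    refine P.ge_mono h5 ?_
    generalize m * q = A
    omega
  have h6 := P.ord_add_of_lt (mul_ne_zero h1 H.y_ne) h4
  rw [add_comm] at h6
  exact ⟨h6.1, h6.2.trans h3⟩

/-- the orders of `s ^ i y ^ j` are distinct modulo `m q` -/
theorem Sl.distinct (H : Sl k F L q m s x y ρ P) (hp : p.Prime) (hf : 1 ≤ f) (hq : q = p ^ f)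
    (hm : 1 ≤ m) (hmp : Nat.Coprime m (p * (q - 1))) (a b : Fin m × Fin q) (hab : a ≠ b) :
    ¬ ((m * q : ℕ) : ℤ) ∣ (a.1 : ℕ) * P.ord s + (a.2 : ℕ) * P.ord y -
      ((b.1 : ℕ) * P.ord s + (b.2 : ℕ) * P.ord y) := by
  intro hd
  rw [H.ord_s, H.ord_y] at hd
  have hq1 : 1 ≤ q := by rw [hq]; exact Nat.one_le_pow _ _ hp.pos
  have hmp' : Nat.Coprime m p := Nat.Coprime.coprime_mul_right_right hmp
  have hmq : Nat.Coprime m q := by rw [hq]; exact hmp'.pow_right f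
  have hmq1 : Nat.Coprime m (q - 1) := Nat.Coprime.coprime_mul_left_right hmp
  have c1 : IsCoprime (q : ℤ) (m : ℤ) := Nat.isCoprime_iff_coprime.2 hmq.symm
  have c2 : IsCoprime (m : ℤ) ((q - 1 : ℕ) : ℤ) := Nat.isCoprime_iff_coprime.2 hmq1
  obtain ⟨⟨i, hi⟩, ⟨j, hj⟩⟩ := a
  obtain ⟨⟨i', hi'⟩, ⟨j', hj'⟩⟩ := b
  simp only at hd
  have e1 : (i : ℤ) * -((q * (q - 1) : ℕ) : ℤ) + (j : ℤ) * -(m : ℤ) -
      ((i' : ℤ) * -((q * (q - 1) : ℕ) : ℤ) + (j' : ℤ) * -(m : ℤ)) =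
      (q : ℤ) * (((q - 1 : ℕ) : ℤ) * (i' - i)) + (m : ℤ) * (j' - j) := by
    rw [Nat.cast_mul]
    ring
  rw [e1] at hd
  have hqd : (q : ℤ) ∣ (m : ℤ) * (j' - j) := by
    have h1 : (q : ℤ) ∣ (q : ℤ) * (((q - 1 : ℕ) : ℤ) * (i' - i)) + (m : ℤ) * (j' - j) :=
      (Dvd.intro_left (m : ℤ) (by push_cast; rfl)).trans hd
    exact (dvd_add_right (Dvd.intro _ rfl)).1 h1
  have hj2 : (q : ℤ) ∣ (j' - j : ℤ) := c1.dvd_of_dvd_mul_left hqd
  have hjj : j' = j := by
    have h1 : |(j' - j : ℤ)| < q := by rw [abs_lt]; constructor <;> omega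
    have h2 := Int.eq_zero_of_abs_lt_dvd hj2 h1
    omega
  subst hjj
  rw [sub_self, mul_zero, add_zero] at hd
  have hq0 : (q : ℤ) ≠ 0 := by exact_mod_cast (by omega : q ≠ 0)
  have hi1 : (m : ℤ) ∣ ((q - 1 : ℕ) : ℤ) * (i' - i) := by
    have h1 : (q : ℤ) * (m : ℤ) ∣ (q : ℤ) * (((q - 1 : ℕ) : ℤ) * (i' - i)) := by
      rw [Nat.cast_mul, mul_comm] at hd
      exact hd
    exact (mul_dvd_mul_iff_left hq0).1 h1
  have hi2 : (m : ℤ) ∣ (i' - i : ℤ) := c2.dvd_of_dvd_mul_left hi1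
  have hii : i' = i := by
    have h1 : |(i' - i : ℤ)| < m := by rw [abs_lt]; constructor <;> omega
    have h2 := Int.eq_zero_of_abs_lt_dvd hi2 h1
    omega
  subst hii
  exact hab rfl

end

theorem slf_thm (hVEC : S_VEC) (hSLX : S_SLX) : S_SLF := by
  intro p k F L _ _ _ _ _ f q m s x y ρ P hp hch hf hq hF hm hmp H g
  have hq1 : 1 ≤ q := by rw [hq]; exact Nat.one_le_pow _ _ hp.pos
  constructor
  · intro hfix
    by_contra h10
    have h1 := hfix x H.x_ne
    rw [H.act_x, (H.ord_lin hm (g.1 0 0) h10).2, H.ord_x, H.ord_y] at h1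
    have h2 : 0 < m * q := Nat.mul_pos hm hq1
    omega
  · intro h10 z hz
    have hdet : g.1 0 0 * g.1 1 1 = 1 := by
      have h1 := g.2
      rw [Matrix.det_fin_two, h10, mul_zero, sub_zero] at h1
      exact h1
    have ha : g.1 0 0 ≠ 0 := left_ne_zero_of_mul_eq_one hdet
    have hd : g.1 1 1 ≠ 0 := right_ne_zero_of_mul_eq_one hdet
    have ha' : algebraMap F k (g.1 0 0) ≠ 0 := (map_ne_zero_iff _ (algebraMap F k).injective).2 ha
    have hx : ρ g x = algebraMap k L (algebraMap F k (g.1 0 0)) * x := by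
      rw [H.act_x, h10]
      simp [cst]
    have hmq : 1 ≤ m * q := Nat.mul_pos hm hq1
    obtain ⟨c, hc, hzc⟩ := H.span z
    have hy' := H.ord_lin hm (g.1 0 1) hd
    rw [← H.act_y] at hy'
    let C : Fin m × Fin q → L := fun a => c a.1 a.2
    let C' : Fin m × Fin q → L := fun a => ρ g (c a.1 a.2)
    let e : Fin m × Fin q → L := fun a => s ^ (a.1 : ℕ) * y ^ (a.2 : ℕ)
    let e' : Fin m × Fin q → L := fun a => s ^ (a.1 : ℕ) * (ρ g y) ^ (a.2 : ℕ)
    have hz1 : z = ∑ a, C a * e a := by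
      rw [hzc, Fintype.sum_prod_type]
      refine sum_congr rfl fun i _ => sum_congr rfl fun j _ => ?_
      simp only [C, e]
      ring
    have hz2 : ρ g z = ∑ a, C' a * e' a := by
      rw [hz1, map_sum]
      refine sum_congr rfl fun a _ => ?_
      simp only [C, C', e, e', map_mul, map_pow, H.act_s]
    have he : ∀ a, e a ≠ 0 := fun a => mul_ne_zero (pow_ne_zero _ H.s_ne) (pow_ne_zero _ H.y_ne)
    have he' : ∀ a, e' a ≠ 0 := fun a => mul_ne_zero (pow_ne_zero _ H.s_ne) (pow_ne_zero _ hy'.1)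
    have oe : ∀ a, P.ord (e a) = (a.1 : ℕ) * P.ord s + (a.2 : ℕ) * P.ord y := fun a => by
      simp only [e]
      rw [P.ord_mul _ _ (pow_ne_zero _ H.s_ne) (pow_ne_zero _ H.y_ne), P.ord_pow H.s_ne,
        P.ord_pow H.y_ne]
    have oe' : ∀ a, P.ord (e' a) = (a.1 : ℕ) * P.ord s + (a.2 : ℕ) * P.ord y := fun a => by
      simp only [e']
      rw [P.ord_mul _ _ (pow_ne_zero _ H.s_ne) (pow_ne_zero _ hy'.1), P.ord_pow H.s_ne,
        P.ord_pow hy'.1, hy'.2]
    have hX := hSLX k L P x (m * q) hmq H.x_ne H.ord_x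
    have hC0 : ∀ a, C' a ≠ 0 ↔ C a ≠ 0 := fun a =>
      map_ne_zero_iff _ (ρ g).injective
    have oC : ∀ a, C a ≠ 0 → P.ord (C' a) = P.ord (C a) := fun a h0 =>
      (hX _ (hc _ _) h0).2 (ρ g) _ ha' hx
    have hC : ∀ a, C a = 0 ∨ ((m * q : ℕ) : ℤ) ∣ P.ord (C a) := fun a => by
      by_cases h0 : C a = 0
      · exact Or.inl h0
      · exact Or.inr (hX _ (hc _ _) h0).1
    have hC' : ∀ a, C' a = 0 ∨ ((m * q : ℕ) : ℤ) ∣ P.ord (C' a) := fun a => by
      by_cases h0 : C a = 0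
      · left
        simp only [C'] 
        simp only [C] at h0
        rw [h0, map_zero]
      · right
        rw [oC a h0]
        exact (hX _ (hc _ _) h0).1
    have hex : ∃ a, C a ≠ 0 := by
      by_contra hcon
      push Not at hcon
      apply hz
      rw [hz1]
      exact sum_eq_zero fun a _ => by rw [hcon a, zero_mul]
    have hex' : ∃ a, C' a ≠ 0 := by
      obtain ⟨a, ha⟩ := hex
      exact ⟨a, (hC0 a).2 ha⟩
    obtain ⟨-, a, ha0, ha1, ha2⟩ := hVEC k L _ P (m * q) e C hmq he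
      (fun i j hij => by rw [oe, oe]; exact H.distinct hp hf hq hm hmp i j hij) hC hex
    obtain ⟨-, b, hb0, hb1, hb2⟩ := hVEC k L _ P (m * q) e' C' hmq he'
      (fun i j hij => by rw [oe', oe']; exact H.distinct hp hf hq hm hmp i j hij) hC' hex'
    have key : ∀ a, C a ≠ 0 → P.ord (C' a * e' a) = P.ord (C a * e a) := fun a h0 => by
      rw [P.ord_mul _ _ ((hC0 a).2 h0) (he' a), P.ord_mul _ _ h0 (he a), oe, oe', oC a h0]
    rw [hz2, hb1, hz1, ha1]
    have hb0' := (hC0 b).1 hb0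
    apply le_antisymm
    · rw [← key a ha0]
      exact hb2 a ((hC0 a).2 ha0)
    · rw [key b hb0']
      exact ha2 b hb0'

end Pool.CND
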